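import Pool.Agent.helper98.RPB.Defs

/-!
# Module LK: contributing families are connected
-/

set_option autoImplicit false

open scoped BigOperators ComplexConjugate
open Pool.Agent.helper98.RPB

namespace Pool.Agent.helper17.RQ

section Abstract

variable {X : Type} [Fintype X] [DecidableEq X]

omit [Fintype X] [DecidableEq X] in
theorem connected_of_conf {ι : Type} [Fintype ι] [Nonempty ι] (V : Matrix X X ℂ) (T : ℕ)
    (hT : 1 ≤ T) (c : ι → ι)
    (hc : ∀ A : Set ι, A.Nonempty → (∀ i ∈ A, c i ∈ A) → A = Set.univ)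
    (a b : ι → Pth X T) (hb : ∀ j, IsPath V (b j)) (h0 : ∀ j, b j 0 = a j 0)
    (h1 : ∀ j, b j (Fin.last T) = a (c j) (Fin.last T))
    (h : ∀ j (t : Fin T), ∃ i, ∃ t' : Fin T, b j t.succ = a i t'.succ) :
    (linkGraph V a).Connected := by
  -- a single step
  have hstep : ∀ (i i' : ι) (s s' : Fin (T + 1)), V (a i' s') (a i s) ≠ 0 →
      (linkGraph V a).Reachable i i' := by
    intro i i' s s' hV
    by_cases hii : i = i'
    · rw [hii]
    · apply SimpleGraph.Adj.reachable
      rw [linkGraph, SimpleGraph.fromRel_adj]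
      exact ⟨hii, Or.inl ⟨s, s', Or.inl hV⟩⟩
  -- along the path `b j`
  have hpath : ∀ (j : ι) (t : ℕ) (ht : t < T + 1), ∃ i s, b j ⟨t, ht⟩ = a i s ∧
      (linkGraph V a).Reachable j i := by
    intro j t
    induction t with
    | zero =>
      intro ht
      exact ⟨j, 0, h0 j, SimpleGraph.Reachable.refl _⟩
    | succ t ih =>
      intro ht
      obtain ⟨i, s, his, hr⟩ := ih (by omega)
      obtain ⟨i', t', hit⟩ := h j ⟨t, by omega⟩
      refine ⟨i', t'.succ, hit, hr.trans (hstep i i' s t'.succ ?_)⟩
      rw [← hit, ← his]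
      exact hb j ⟨t, by omega⟩
  have hcr : ∀ j, (linkGraph V a).Reachable j (c j) := by
    intro j
    obtain ⟨i, s, his, hr⟩ := hpath j (T - 1) (by omega)
    refine hr.trans (hstep i (c j) s (Fin.last T) ?_)
    rw [← h1, ← his]
    have := hb j ⟨T - 1, by omega⟩
    have e1 : (⟨T - 1, by omega⟩ : Fin T).succ = Fin.last T := by
      apply Fin.ext
      show T - 1 + 1 = T
      omega
    rw [e1] at this
    exact this
  refine ⟨fun j i => ?_⟩
  have hall := hc {i | (linkGraph V a).Reachable j i} ⟨j, SimpleGraph.Reachable.refl _⟩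
    (fun i hi => (show (linkGraph V a).Reachable j i from hi).trans (hcr i))
  have : i ∈ {i | (linkGraph V a).Reachable j i} := by
    rw [hall]
    exact Set.mem_univ i
  exact this

open scoped Fin.NatCast in
theorem rotate_transitive (P : ℕ) [NeZero P] (A : Set (Fin P)) (hA : A.Nonempty)
    (h : ∀ i ∈ A, finRotate P i ∈ A) : A = Set.univ := by
  obtain ⟨Q, rfl⟩ : ∃ Q, P = Q + 1 := ⟨P - 1, by have := NeZero.pos P; omega⟩
  obtain ⟨i, hi⟩ := hA
  have hk : ∀ k : ℕ, i + (k : Fin (Q + 1)) ∈ A := by
    intro k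
    induction k with
    | zero => simpa using hi
    | succ k ih =>
      have := h _ ih
      rw [finRotate_apply] at this
      rw [Nat.cast_succ, ← add_assoc]
      exact this
  ext x
  simp only [Set.mem_univ, iff_true]
  have := hk (x - i).val
  rw [Fin.cast_val_eq_self, add_sub_cancel] at this
  exact this

open scoped Fin.NatCast in
theorem rotate_symm_transitive (P : ℕ) [NeZero P] (A : Set (Fin P)) (hA : A.Nonempty)
    (h : ∀ i ∈ A, (finRotate P).symm i ∈ A) : A = Set.univ := by
  obtain ⟨Q, rfl⟩ : ∃ Q, P = Q + 1 := ⟨P - 1, by have := NeZero.pos P; omega⟩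
  have hsymm : ∀ i : Fin (Q + 1), (finRotate (Q + 1)).symm i = i - 1 := by
    intro i
    rw [Equiv.symm_apply_eq, finRotate_apply, sub_add_cancel]
  obtain ⟨i, hi⟩ := hA
  have hk : ∀ k : ℕ, i - (k : Fin (Q + 1)) ∈ A := by
    intro k
    induction k with
    | zero => simpa using hi
    | succ k ih =>
      have := h _ ih
      rw [hsymm] at this
      rw [Nat.cast_succ, ← sub_sub]
      exact this
  ext x
  simp only [Set.mem_univ, iff_true]
  have := hk (i - x).val
  rw [Fin.cast_val_eq_self, sub_sub_cancel] at this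
  exact this

end Abstract

end Pool.Agent.helper17.RQ
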